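import Mathlib

/-!
MP_2fa24b: the edges of the Schreier graph of the free part of the 2-shift of the free group on
`a, b` can be partitioned into three Borel sets `A, B, C` such that every `H`-line contains an edge
of `A`, every `V`-line contains an edge of `B` and every `D`-line contains an edge of `C`.
-/

open Set MeasureTheory

namespace Pool.Agent.Results.MP_2fa24b_lc.BorelEdgePartition

/-- The free group on two generators. -/
abbrev F2 : Type := FreeGroup (Fin 2)

/-- the first generator -/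
def a : F2 := FreeGroup.of 0

/-- the second generator -/
def b : F2 := FreeGroup.of 1

/-! ### Borel maximal independent sets -/

section MIS

variable {X : Type} [MeasurableSpace X]

/-- the stages of the greedy construction -/
def stage (f : Fin 4 → X → X) (U : ℕ → Set X) : ℕ → Set X
  | 0 => ∅
  | (n + 1) => stage f U n ∪ {x | (x ∈ U n ∧ ∀ i, f i x ∉ U n) ∧ x ∉ stage f U n ∧
      ∀ i, f i x ∉ stage f U n}

theorem measurable_stage {f : Fin 4 → X → X} (hf : ∀ i, Measurable (f i)) {U : ℕ → Set X}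
    (hU : ∀ n, MeasurableSet (U n)) (n : ℕ) : MeasurableSet (stage f U n) := by
  induction n with
  | zero => exact MeasurableSet.empty
  | succ n ih =>
    refine ih.union ?_
    have h1 : {x | (x ∈ U n ∧ ∀ i, f i x ∉ U n) ∧ x ∉ stage f U n ∧ ∀ i, f i x ∉ stage f U n} =
        (U n ∩ ⋂ i, (f i ⁻¹' (U n))ᶜ) ∩ ((stage f U n)ᶜ ∩ ⋂ i, (f i ⁻¹' (stage f U n))ᶜ) := by
      ext x
      simp only [mem_ofPred_eq, mem_inter_iff, mem_iInter, mem_compl_iff, mem_preimage]
    rw [h1]
    exact ((hU n).inter (MeasurableSet.iInter fun i => (hf i (hU n)).compl)).inter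
      (ih.compl.inter (MeasurableSet.iInter fun i => (hf i ih).compl))

omit [MeasurableSpace X] in
theorem stage_mono (f : Fin 4 → X → X) (U : ℕ → Set X) : Monotone (stage f U) :=
  monotone_nat_of_le_succ fun _ => subset_union_left

/-- A Borel maximal independent set. -/
theorem exists_mis {f : Fin 4 → X → X} (hf : ∀ i, Measurable (f i))
    (hsymm : ∀ i x, ∃ j, f j (f i x) = x) (hne : ∀ i x, f i x ≠ x)
    (S : ℕ → Set X) (hS : ∀ n, MeasurableSet (S n)) (hsep : ∀ x y, x ≠ y → ∃ n, x ∈ S n ∧ y ∉ S n) :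
    ∃ Y : Set X, MeasurableSet Y ∧ (∀ x ∈ Y, ∀ i, f i x ∉ Y) ∧ ∀ x, x ∉ Y → ∃ i, f i x ∈ Y := by
  obtain ⟨e, he⟩ := exists_surjective_nat (Fin 4 → ℕ)
  let U : ℕ → Set X := fun n => ⋂ i, S (e n i)
  have hU : ∀ n, MeasurableSet (U n) := fun n => MeasurableSet.iInter fun i => hS _
  have hcov : ∀ x, ∃ n, x ∈ U n ∧ ∀ i, f i x ∉ U n := by
    intro x
    have h1 : ∀ i, ∃ n, x ∈ S n ∧ f i x ∉ S n := fun i => hsep x (f i x) (hne i x).symm
    choose t ht1 ht2 using h1
    obtain ⟨n, hn⟩ := he t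
    refine ⟨n, ?_, ?_⟩
    · rw [mem_iInter]
      intro i
      rw [hn]
      exact ht1 i
    · intro i hi
      rw [mem_iInter] at hi
      have := hi i
      rw [hn] at this
      exact ht2 i this
  have hentry : ∀ x, x ∈ (⋃ n, stage f U n) → ∃ n, (x ∈ U n ∧ ∀ i, f i x ∉ U n) ∧
      x ∉ stage f U n ∧ (∀ i, f i x ∉ stage f U n) ∧ x ∈ stage f U (n + 1) := by
    classical
    intro x hx
    have hx' : ∃ n, x ∈ stage f U n := mem_iUnion.1 hx
    have h0 : Nat.find hx' ≠ 0 := by
      intro h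
      have := Nat.find_spec hx'
      rw [h] at this
      exact this
    obtain ⟨n, hn⟩ := Nat.exists_eq_succ_of_ne_zero h0
    have h1 : x ∉ stage f U n := Nat.find_min hx' (by omega)
    have h2 : x ∈ stage f U (n + 1) := by
      have := Nat.find_spec hx'
      rwa [hn] at this
    rcases h2 with h3 | h3
    · exact absurd h3 h1
    · exact ⟨n, h3.1, h1, h3.2.2, Or.inr h3⟩
  refine ⟨⋃ n, stage f U n, MeasurableSet.iUnion (measurable_stage hf hU), ?_, ?_⟩
  · intro x hx i hy
    obtain ⟨n, ⟨hn1, hn2⟩, hn3, hn4, hn5⟩ := hentry x hx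
    obtain ⟨m, ⟨hm1, hm2⟩, hm3, hm4, hm5⟩ := hentry (f i x) hy
    rcases lt_trichotomy n m with h | h | h
    · obtain ⟨j, hj⟩ := hsymm i x
      have := hm4 j
      rw [hj] at this
      exact this (stage_mono f U (Nat.succ_le_of_lt h) hn5)
    · subst h
      exact hn2 i hm1
    · exact hn4 i (stage_mono f U (Nat.succ_le_of_lt h) hm5)
  · intro x hx
    by_contra hcon
    push Not at hcon
    obtain ⟨n, hn1, hn2⟩ := hcov x
    apply hx
    refine mem_iUnion.2 ⟨n + 1, Or.inr ⟨⟨hn1, hn2⟩, ?_, ?_⟩⟩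
    · exact fun h => hx (mem_iUnion.2 ⟨n, h⟩)
    · exact fun i h => hcon i (mem_iUnion.2 ⟨n, h⟩)

end MIS

/-! ### The partition, for general free Borel actions of the free group -/

/-- The edge relation of the Schreier graph. -/
def Edge {X : Type} [MulAction F2 X] (x y : X) : Prop :=
  y = a • x ∨ x = a • y ∨ y = b • x ∨ x = b • y

/-- `P`, `Q`, `R` is a partition of the (unordered) edges into three Borel sets; a set of edges is
represented by the symmetric set of the ordered pairs of endpoints. -/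
def IsBorelEdgePartition {X : Type} [MulAction F2 X] [MeasurableSpace X]
    (A B C : Set (X × X)) : Prop :=
  (MeasurableSet A ∧ MeasurableSet B ∧ MeasurableSet C) ∧
  ((∀ x y, (x, y) ∈ A → (y, x) ∈ A) ∧ (∀ x y, (x, y) ∈ B → (y, x) ∈ B) ∧
    (∀ x y, (x, y) ∈ C → (y, x) ∈ C)) ∧
  (Disjoint A B ∧ Disjoint A C ∧ Disjoint B C) ∧
  ∀ x y : X, (x, y) ∈ A ∪ B ∪ C ↔ Edge x y

/-- The set `S • x` contains an edge from `P`. -/
def ContainsEdge {X : Type} [MulAction F2 X] (S : Set F2) (x : X) (P : Set (X × X)) : Prop :=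
  ∃ s ∈ S, ∃ t ∈ S, (s • x, t • x) ∈ P

/-- the set `H` -/
def H : Set F2 := {g | ∃ n : ℤ, g = a ^ n}

/-- the set `V` -/
def V : Set F2 := {g | ∃ n : ℤ, g = b ^ n}

/-- the elements `w_n` -/
def w (n : ℤ) : F2 := if Even n then (b * a) ^ (n / 2) else a * (b * a) ^ (n / 2)

/-- the set `D` -/
def D : Set F2 := {g | ∃ n : ℤ, g = w n}

theorem w_zero : w 0 = 1 := by
  simp [w]

theorem w_even {n : ℤ} (hn : Even n) : w (n + 1) = a * w n := by
  obtain ⟨k, rfl⟩ := hn
  have h1 : ¬ Even (k + k + 1) := by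
    rw [Int.not_even_iff_odd]
    exact ⟨k, by ring⟩
  unfold w
  rw [if_neg h1, if_pos ⟨k, rfl⟩]
  congr 2
  omega

theorem w_odd {n : ℤ} (hn : Odd n) : w (n + 1) = b * w n := by
  obtain ⟨k, rfl⟩ := hn
  have h1 : ¬ Even (2 * k + 1) := by
    rw [Int.not_even_iff_odd]
    exact ⟨k, rfl⟩
  have h2 : Even (2 * k + 1 + 1) := ⟨k + 1, by ring⟩
  unfold w
  rw [if_neg h1, if_pos h2]
  rw [show (2 * k + 1 + 1) / 2 = k + 1 by omega, show (2 * k + 1) / 2 = k by omega,
    add_comm k 1, zpow_add, zpow_one, mul_assoc]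

theorem w_neg_one : w (-1) = b⁻¹ := by
  have h := w_odd (n := -1) (by decide)
  rw [show (-1 : ℤ) + 1 = 0 by norm_num, w_zero] at h
  exact (inv_eq_of_mul_eq_one_right h.symm).symm

theorem w_one : w 1 = a := by
  have h := w_even (n := 0) (by decide)
  rw [zero_add, w_zero, mul_one] at h
  exact h

theorem w_two : w 2 = b * a := by
  have h := w_odd (n := 1) (by decide)
  rw [w_one] at h
  exact h

theorem w_neg_two : w (-2) = a⁻¹ * b⁻¹ := by
  have h := w_even (n := -2) (by decide)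
  rw [show (-2 : ℤ) + 1 = -1 by norm_num, w_neg_one] at h
  rw [h]
  group

theorem aa_ne : a * a ≠ 1 := by decide

theorem bb_ne : b * b ≠ 1 := by decide

theorem ab_ne : a * b ≠ 1 := by decide

theorem ba_ne : b * a ≠ 1 := by decide

theorem a_inv_b_ne : a⁻¹ * b ≠ 1 := by decide

theorem a_ne : a ≠ 1 := by decide

theorem b_ne : b ≠ 1 := by decide

section Partition

variable {X : Type} [MeasurableSpace X] [MulAction F2 X]

theorem exists_partition (hmeas : ∀ g : F2, Measurable (fun x : X => g • x))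
    (hfree : ∀ (g : F2) (x : X), g • x = x → g = 1)
    (S : ℕ → Set X) (hS : ∀ n, MeasurableSet (S n))
    (hsep : ∀ x y, x ≠ y → ∃ n, x ∈ S n ∧ y ∉ S n) :
    ∃ A B C : Set (X × X), IsBorelEdgePartition A B C ∧
      ∀ x : X, ContainsEdge H x A ∧ ContainsEdge V x B ∧ ContainsEdge D x C := by
  -- the maximal independent set
  obtain ⟨Y, hY, hind, hmax⟩ := exists_mis (X := X)
    (f := ![fun x => a • x, fun x => a⁻¹ • x, fun x => b • x, fun x => b⁻¹ • x])
    (by
      intro i
      fin_cases i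
      · exact hmeas a
      · exact hmeas a⁻¹
      · exact hmeas b
      · exact hmeas b⁻¹)
    (by
      intro i x
      fin_cases i
      · exact ⟨1, by simp⟩
      · exact ⟨0, by simp⟩
      · exact ⟨3, by simp⟩
      · exact ⟨2, by simp⟩)
    (by
      intro i x h
      fin_cases i
      · exact a_ne (hfree a x h)
      · exact a_ne (inv_eq_one.1 (hfree a⁻¹ x h))
      · exact b_ne (hfree b x h)
      · exact b_ne (inv_eq_one.1 (hfree b⁻¹ x h)))
    S hS hsep
  have hia : ∀ x ∈ Y, a • x ∉ Y := fun x hx => hind x hx 0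
  have hia' : ∀ x ∈ Y, a⁻¹ • x ∉ Y := fun x hx => hind x hx 1
  have hib : ∀ x ∈ Y, b • x ∉ Y := fun x hx => hind x hx 2
  have hib' : ∀ x ∈ Y, b⁻¹ • x ∉ Y := fun x hx => hind x hx 3
  have hmax' : ∀ x, x ∉ Y → a • x ∈ Y ∨ a⁻¹ • x ∈ Y ∨ b • x ∈ Y ∨ b⁻¹ • x ∈ Y := by
    intro x hx
    obtain ⟨i, hi⟩ := hmax x hx
    fin_cases i
    · exact Or.inl hi
    · exact Or.inr (Or.inl hi)
    · exact Or.inr (Or.inr (Or.inl hi))
    · exact Or.inr (Or.inr (Or.inr hi))
  let gH : Set X := ⋃ n : ℤ, (fun x => a ^ n • x) ⁻¹' Y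
  let gV : Set X := ⋃ n : ℤ, (fun x => b ^ n • x) ⁻¹' Y
  let gD : Set X := ⋃ n : ℤ, (fun x => w n • x) ⁻¹' Y
  have mgH : MeasurableSet gH := MeasurableSet.iUnion fun n => hmeas _ hY
  have mgV : MeasurableSet gV := MeasurableSet.iUnion fun n => hmeas _ hY
  have mgD : MeasurableSet gD := MeasurableSet.iUnion fun n => hmeas _ hY
  have memH : ∀ x, x ∈ gH ↔ ∃ n : ℤ, a ^ n • x ∈ Y := fun x => mem_iUnion
  have memV : ∀ x, x ∈ gV ↔ ∃ n : ℤ, b ^ n • x ∈ Y := fun x => mem_iUnion
  have memD : ∀ x, x ∈ gD ↔ ∃ n : ℤ, w n • x ∈ Y := fun x => mem_iUnion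
  let Ua : Set X := Y ∪ (((fun x => a • x) ⁻¹' Y)ᶜ ∩ (gH ∩ gDᶜ)ᶜ)
  let Ub : Set X := Y ∪ (((fun x => b • x) ⁻¹' Y)ᶜ ∩ (gV ∩ ((fun x => b • x) ⁻¹' gD)ᶜ)ᶜ)
  have mUa : MeasurableSet Ua := hY.union ((hmeas a hY).compl.inter (mgH.inter mgD.compl).compl)
  have mUb : MeasurableSet Ub :=
    hY.union ((hmeas b hY).compl.inter (mgV.inter (hmeas b mgD).compl).compl)
  -- measurability of graphs
  have hgraph : ∀ g : F2, MeasurableSet {p : X × X | p.2 = g • p.1} := by
    intro g
    have h1 : {p : X × X | p.2 = g • p.1} = ⋂ n, ((((fun p : X × X => g • p.1) ⁻¹' S n) ∩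
        (Prod.snd ⁻¹' S n)) ∪ (((fun p : X × X => g • p.1) ⁻¹' S n)ᶜ ∩ (Prod.snd ⁻¹' S n)ᶜ)) := by
      ext p
      simp only [mem_ofPred_eq, mem_iInter]
      constructor
      · intro h n
        by_cases hn : p.2 ∈ S n
        · left
          refine ⟨?_, hn⟩
          change g • p.1 ∈ S n
          rw [← h]
          exact hn
        · right
          refine ⟨?_, hn⟩
          intro h2
          apply hn
          rw [h]
          exact h2
      · intro h
        by_contra hne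
        obtain ⟨n, hn1, hn2⟩ := hsep _ _ hne
        rcases h n with h3 | h3
        · exact hn2 h3.1
        · exact h3.2 hn1
    rw [h1]
    have m1 : Measurable (fun p : X × X => g • p.1) := (hmeas g).comp measurable_fst
    exact MeasurableSet.iInter fun n => ((m1 (hS n)).inter (measurable_snd (hS n))).union
      ((m1 (hS n)).compl.inter (measurable_snd (hS n)).compl)
  have hgraph' : ∀ g : F2, MeasurableSet {p : X × X | p.1 = g • p.2} := fun g =>
    measurable_swap (hgraph g)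
  let A : Set (X × X) := ((Prod.fst ⁻¹' Ua) ∩ {p | p.2 = a • p.1}) ∪
    ((Prod.snd ⁻¹' Ua) ∩ {p | p.1 = a • p.2})
  let B : Set (X × X) := ((Prod.fst ⁻¹' Ub) ∩ {p | p.2 = b • p.1}) ∪
    ((Prod.snd ⁻¹' Ub) ∩ {p | p.1 = b • p.2})
  let C : Set (X × X) := (((Prod.fst ⁻¹' Ua)ᶜ ∩ {p | p.2 = a • p.1}) ∪
    ((Prod.snd ⁻¹' Ua)ᶜ ∩ {p | p.1 = a • p.2})) ∪ (((Prod.fst ⁻¹' Ub)ᶜ ∩ {p | p.2 = b • p.1}) ∪
    ((Prod.snd ⁻¹' Ub)ᶜ ∩ {p | p.1 = b • p.2}))
  have memA : ∀ x y, (x, y) ∈ A ↔ (x ∈ Ua ∧ y = a • x) ∨ (y ∈ Ua ∧ x = a • y) := fun x y => Iff.rfl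
  have memB : ∀ x y, (x, y) ∈ B ↔ (x ∈ Ub ∧ y = b • x) ∨ (y ∈ Ub ∧ x = b • y) := fun x y => Iff.rfl
  have memC : ∀ x y, (x, y) ∈ C ↔ ((x ∉ Ua ∧ y = a • x) ∨ (y ∉ Ua ∧ x = a • y)) ∨
      ((x ∉ Ub ∧ y = b • x) ∨ (y ∉ Ub ∧ x = b • y)) := fun x y => Iff.rfl
  -- incompatible configurations
  have c1 : ∀ x y : X, y = a • x → x = a • y → False := by
    intro x y h1 h2
    apply aa_ne
    apply hfree _ x
    rw [mul_smul, ← h1, ← h2]
  have c2 : ∀ x y : X, y = b • x → x = b • y → False := by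
    intro x y h1 h2
    apply bb_ne
    apply hfree _ x
    rw [mul_smul, ← h1, ← h2]
  have c3 : ∀ x y : X, y = a • x → y = b • x → False := by
    intro x y h1 h2
    apply a_inv_b_ne
    apply hfree _ x
    rw [mul_smul, ← h2, h1, inv_smul_smul]
  have c4 : ∀ x y : X, y = a • x → x = b • y → False := by
    intro x y h1 h2
    apply ba_ne
    apply hfree _ x
    rw [mul_smul, ← h1, ← h2]
  refine ⟨A, B, C, ⟨⟨?_, ?_, ?_⟩, ⟨?_, ?_, ?_⟩, ⟨?_, ?_, ?_⟩, ?_⟩, ?_⟩
  · exact ((measurable_fst mUa).inter (hgraph a)).union ((measurable_snd mUa).inter (hgraph' a))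
  · exact ((measurable_fst mUb).inter (hgraph b)).union ((measurable_snd mUb).inter (hgraph' b))
  · exact (((measurable_fst mUa).compl.inter (hgraph a)).union
      ((measurable_snd mUa).compl.inter (hgraph' a))).union
      (((measurable_fst mUb).compl.inter (hgraph b)).union
      ((measurable_snd mUb).compl.inter (hgraph' b)))
  · intro x y h
    rw [memA] at h ⊢
    tauto
  · intro x y h
    rw [memB] at h ⊢
    tauto
  · intro x y h
    rw [memC] at h ⊢
    tauto
  · rw [Set.disjoint_left]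
    rintro ⟨x, y⟩ h1 h2
    rw [memA] at h1
    rw [memB] at h2
    rcases h1 with ⟨_, h1⟩ | ⟨_, h1⟩ <;> rcases h2 with ⟨_, h2⟩ | ⟨_, h2⟩
    · exact c3 _ _ h1 h2
    · exact c4 _ _ h1 h2
    · exact c4 _ _ h1 h2
    · exact c3 _ _ h1 h2
  · rw [Set.disjoint_left]
    rintro ⟨x, y⟩ h1 h2
    rw [memA] at h1
    rw [memC] at h2
    rcases h1 with ⟨h0, h1⟩ | ⟨h0, h1⟩ <;>
      rcases h2 with (⟨h3, h2⟩ | ⟨h3, h2⟩) | (⟨h3, h2⟩ | ⟨h3, h2⟩)
    · exact h3 h0
    · exact c1 _ _ h1 h2
    · exact c3 _ _ h1 h2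
    · exact c4 _ _ h1 h2
    · exact c1 _ _ h1 h2
    · exact h3 h0
    · exact c4 _ _ h1 h2
    · exact c3 _ _ h1 h2
  · rw [Set.disjoint_left]
    rintro ⟨x, y⟩ h1 h2
    rw [memB] at h1
    rw [memC] at h2
    rcases h1 with ⟨h0, h1⟩ | ⟨h0, h1⟩ <;>
      rcases h2 with (⟨h3, h2⟩ | ⟨h3, h2⟩) | (⟨h3, h2⟩ | ⟨h3, h2⟩)
    · exact c3 _ _ h2 h1
    · exact c4 _ _ h2 h1
    · exact h3 h0
    · exact c2 _ _ h1 h2
    · exact c4 _ _ h2 h1
    · exact c3 _ _ h2 h1
    · exact c2 _ _ h1 h2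
    · exact h3 h0
  · intro x y
    rw [mem_union, mem_union, memA, memB, memC]
    constructor
    · rintro ((h | h) | h)
      · rcases h with ⟨_, h⟩ | ⟨_, h⟩
        · exact Or.inl h
        · exact Or.inr (Or.inl h)
      · rcases h with ⟨_, h⟩ | ⟨_, h⟩
        · exact Or.inr (Or.inr (Or.inl h))
        · exact Or.inr (Or.inr (Or.inr h))
      · rcases h with (⟨_, h⟩ | ⟨_, h⟩) | (⟨_, h⟩ | ⟨_, h⟩)
        · exact Or.inl h
        · exact Or.inr (Or.inl h)
        · exact Or.inr (Or.inr (Or.inl h))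
        · exact Or.inr (Or.inr (Or.inr h))
    · rintro (h | h | h | h)
      · by_cases hU : x ∈ Ua
        · exact Or.inl (Or.inl (Or.inl ⟨hU, h⟩))
        · exact Or.inr (Or.inl (Or.inl ⟨hU, h⟩))
      · by_cases hU : y ∈ Ua
        · exact Or.inl (Or.inl (Or.inr ⟨hU, h⟩))
        · exact Or.inr (Or.inl (Or.inr ⟨hU, h⟩))
      · by_cases hU : x ∈ Ub
        · exact Or.inl (Or.inr (Or.inl ⟨hU, h⟩))
        · exact Or.inr (Or.inr (Or.inl ⟨hU, h⟩))
      · by_cases hU : y ∈ Ub
        · exact Or.inl (Or.inr (Or.inr ⟨hU, h⟩))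
        · exact Or.inr (Or.inr (Or.inr ⟨hU, h⟩))
  -- the three conditions
  intro x
  have memUa : ∀ z, z ∈ Ua ↔ z ∈ Y ∨ (a • z ∉ Y ∧ ¬ (z ∈ gH ∧ z ∉ gD)) := fun z => Iff.rfl
  have memUb : ∀ z, z ∈ Ub ↔ z ∈ Y ∨ (b • z ∉ Y ∧ ¬ (z ∈ gV ∧ b • z ∉ gD)) := fun z => Iff.rfl
  refine ⟨?_, ?_, ?_⟩
  · -- `H`
    by_cases hg : x ∈ gH
    · obtain ⟨n, hn⟩ := (memH x).1 hg
      refine ⟨a ^ n, ⟨n, rfl⟩, a ^ (1 + n), ⟨1 + n, rfl⟩, ?_⟩
      rw [memA]
      left
      refine ⟨(memUa _).2 (Or.inl hn), ?_⟩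
      rw [zpow_add, zpow_one, mul_smul]
    · have hgx : ∀ n : ℤ, a ^ n • x ∉ Y := fun n h => hg ((memH x).2 ⟨n, h⟩)
      have hx : x ∉ Y := by simpa using hgx 0
      have hax : a • x ∉ Y := by simpa using hgx 1
      have hax' : a⁻¹ • x ∉ Y := by simpa using hgx (-1)
      rcases hmax' x hx with h | h | h | h
      · exact absurd h hax
      · exact absurd h hax'
      · -- `b x ∈ Y`: use the edge `{a⁻¹ x, x}`
        refine ⟨a ^ (-1 : ℤ), ⟨-1, rfl⟩, 1, ⟨0, by simp⟩, ?_⟩
        rw [memA]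
        left
        rw [zpow_neg_one, one_smul, smul_inv_smul]
        refine ⟨(memUa _).2 (Or.inr ⟨by rwa [smul_inv_smul], ?_⟩), rfl⟩
        rintro ⟨_, h2⟩
        apply h2
        rw [memD]
        refine ⟨2, ?_⟩
        rw [w_two, mul_smul, smul_inv_smul]
        exact h
      · refine ⟨1, ⟨0, by simp⟩, a, ⟨1, by simp⟩, ?_⟩
        rw [memA]
        left
        rw [one_smul]
        refine ⟨(memUa _).2 (Or.inr ⟨hax, ?_⟩), rfl⟩
        rintro ⟨_, h2⟩
        apply h2
        rw [memD]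
        refine ⟨-1, ?_⟩
        rw [w_neg_one]
        exact h
  · -- `V`
    by_cases hg : x ∈ gV
    · obtain ⟨n, hn⟩ := (memV x).1 hg
      refine ⟨b ^ n, ⟨n, rfl⟩, b ^ (1 + n), ⟨1 + n, rfl⟩, ?_⟩
      rw [memB]
      left
      refine ⟨(memUb _).2 (Or.inl hn), ?_⟩
      rw [zpow_add, zpow_one, mul_smul]
    · have hgx : ∀ n : ℤ, b ^ n • x ∉ Y := fun n h => hg ((memV x).2 ⟨n, h⟩)
      have hx : x ∉ Y := by simpa using hgx 0
      have hbx : b • x ∉ Y := by simpa using hgx 1
      have hbx' : b⁻¹ • x ∉ Y := by simpa using hgx (-1)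
      rcases hmax' x hx with h | h | h | h
      · -- `a x ∈ Y`: use the edge `{b⁻¹ x, x}`
        refine ⟨b ^ (-1 : ℤ), ⟨-1, rfl⟩, 1, ⟨0, by simp⟩, ?_⟩
        rw [memB]
        left
        rw [zpow_neg_one, one_smul, smul_inv_smul]
        refine ⟨(memUb _).2 (Or.inr ⟨by rwa [smul_inv_smul], ?_⟩), rfl⟩
        rintro ⟨_, h2⟩
        apply h2
        rw [smul_inv_smul, memD]
        refine ⟨1, ?_⟩
        rw [w_one]
        exact h
      · -- `a⁻¹ x ∈ Y`: use the edge `{x, b x}`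
        refine ⟨1, ⟨0, by simp⟩, b, ⟨1, by simp⟩, ?_⟩
        rw [memB]
        left
        rw [one_smul]
        refine ⟨(memUb _).2 (Or.inr ⟨hbx, ?_⟩), rfl⟩
        rintro ⟨_, h2⟩
        apply h2
        rw [memD]
        refine ⟨-2, ?_⟩
        rw [w_neg_two, mul_smul, inv_smul_smul]
        exact h
      · exact absurd h hbx
      · exact absurd h hbx'
  · -- `D`
    by_cases hg : x ∈ gD
    · obtain ⟨n, hn⟩ := (memD x).1 hg
      rcases Int.even_or_odd n with he | ho
      · -- `n` even: the previous edge is a `b`-edge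
        have h1 : Odd (n - 1) := he.sub_odd odd_one
        have h2 : w n = b * w (n - 1) := by
          have := w_odd h1
          rwa [sub_add_cancel] at this
        refine ⟨w (n - 1), ⟨n - 1, rfl⟩, w n, ⟨n, rfl⟩, ?_⟩
        have h3 : w n • x = b • (w (n - 1) • x) := by rw [h2, mul_smul]
        rw [memC]
        right; left
        refine ⟨?_, h3⟩
        rw [memUb]
        rintro (h | ⟨h, _⟩)
        · exact hib _ h (h3 ▸ hn)
        · exact h (h3 ▸ hn)
      · have h1 : Even (n - 1) := ho.sub_odd odd_one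
        have h2 : w n = a * w (n - 1) := by
          have := w_even h1
          rwa [sub_add_cancel] at this
        refine ⟨w (n - 1), ⟨n - 1, rfl⟩, w n, ⟨n, rfl⟩, ?_⟩
        have h3 : w n • x = a • (w (n - 1) • x) := by rw [h2, mul_smul]
        rw [memC]
        left; left
        refine ⟨?_, h3⟩
        rw [memUa]
        rintro (h | ⟨h, _⟩)
        · exact hia _ h (h3 ▸ hn)
        · exact h (h3 ▸ hn)
    · have hgx : ∀ n : ℤ, w n • x ∉ Y := fun n h => hg ((memD x).2 ⟨n, h⟩)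
      have hx : x ∉ Y := by simpa [w_zero] using hgx 0
      have hax : a • x ∉ Y := by simpa [w_one] using hgx 1
      have hbx' : b⁻¹ • x ∉ Y := by simpa [w_neg_one] using hgx (-1)
      rcases hmax' x hx with h | h | h | h
      · exact absurd h hax
      · -- `a⁻¹ x ∈ Y`: the edge `{x, a x}`
        refine ⟨w 0, ⟨0, rfl⟩, w 1, ⟨1, rfl⟩, ?_⟩
        rw [w_zero, w_one, one_smul, memC]
        left; left
        refine ⟨?_, rfl⟩
        rw [memUa]
        rintro (h1 | ⟨_, h1⟩)
        · exact hx h1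
        · apply h1
          refine ⟨?_, hg⟩
          rw [memH]
          exact ⟨-1, by rw [zpow_neg_one]; exact h⟩
      · -- `b x ∈ Y`: the edge `{b⁻¹ x, x}`
        refine ⟨w (-1), ⟨-1, rfl⟩, w 0, ⟨0, rfl⟩, ?_⟩
        rw [w_zero, w_neg_one, one_smul, memC]
        right; left
        refine ⟨?_, by rw [smul_inv_smul]⟩
        rw [memUb]
        rintro (h1 | ⟨_, h1⟩)
        · exact hbx' h1
        · apply h1
          rw [smul_inv_smul]
          refine ⟨?_, hg⟩
          rw [memV]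
          refine ⟨2, ?_⟩
          have : (b ^ (2 : ℤ)) • (b⁻¹ • x) = b • x := by
            rw [← mul_smul]
            congr 1
            group
          rw [this]
          exact h
      · exact absurd h hbx'

end Partition

/-! ### The free part of the 2-shift -/

/-- The shift action on `{0,1}^{F₂}`: `(g · x)(h) = x(g⁻¹ h)`. -/
def shift (g : F2) (x : F2 → Bool) : F2 → Bool := fun h => x (g⁻¹ * h)

theorem shift_mul (g h : F2) (x : F2 → Bool) : shift (g * h) x = shift g (shift h x) := by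
  funext k
  simp [shift, mul_assoc]

theorem shift_one (x : F2 → Bool) : shift 1 x = x := by
  funext k
  simp [shift]

/-- The free part of the 2-shift. -/
def X : Type := {x : F2 → Bool // ∀ g : F2, g ≠ 1 → shift g x ≠ x}

/-- The subspace topology of the product topology. -/
instance : TopologicalSpace X := instTopologicalSpaceSubtype

/-- The Borel sets of `X`. -/
instance : MeasurableSpace X := borel X

instance : BorelSpace X := ⟨rfl⟩

/-- The shift action of `F₂` on the free part. -/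
instance : MulAction F2 X where
  smul g x := ⟨shift g x.1, by
    intro h hh heq
    apply x.2 (g⁻¹ * h * g)
    · intro h1
      apply hh
      have : h = g * (g⁻¹ * h * g) * g⁻¹ := by group
      rw [this, h1]
      group
    · rw [shift_mul, shift_mul, heq, ← shift_mul]
      simp [shift_one]⟩
  one_smul x := Subtype.ext (shift_one x.1)
  mul_smul g h x := Subtype.ext (shift_mul g h x.1)

theorem smul_val (g : F2) (x : X) : (g • x).1 = shift g x.1 := rfl

/-- **Theorem.** There is a partition of the edge set of the Schreier graph of the free part of the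
2-shift of `F₂` into three Borel sets `A`, `B`, `C` such that for every `x` the set `H x` contains an
edge of `A`, the set `V x` contains an edge of `B`, and the set `D x` contains an edge of `C`.
The recursion for the elements `w n` defining `D` is recalled. -/
theorem result :
    (w 0 = 1 ∧ (∀ n, Even n → w (n + 1) = a * w n) ∧ (∀ n, Odd n → w (n + 1) = b * w n)) ∧
    ∃ A B C : Set (X × X), IsBorelEdgePartition A B C ∧
      ∀ x : X, ContainsEdge H x A ∧ ContainsEdge V x B ∧ ContainsEdge D x C := by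
  refine ⟨⟨w_zero, fun n => w_even, fun n => w_odd⟩, ?_⟩
  obtain ⟨e, he⟩ := exists_surjective_nat (F2 × Bool)
  have hcont : ∀ h : F2, Continuous (fun x : X => x.1 h) := fun h =>
    (continuous_apply h).comp continuous_subtype_val
  apply exists_partition (X := X) _ _ (fun n => {x : X | x.1 (e n).1 = (e n).2})
  · intro n
    have : IsOpen {x : X | x.1 (e n).1 = (e n).2} :=
      (isOpen_discrete ({(e n).2} : Set Bool)).preimage (hcont (e n).1)
    exact this.measurableSet
  · intro x y hxy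
    have hne : x.1 ≠ y.1 := fun h => hxy (Subtype.ext h)
    obtain ⟨h, hh⟩ := Function.ne_iff.1 hne
    obtain ⟨n, hn⟩ := he (h, x.1 h)
    refine ⟨n, ?_, ?_⟩
    · change x.1 (e n).1 = (e n).2
      rw [hn]
    · intro h1
      have h2 : y.1 (e n).1 = (e n).2 := h1
      rw [hn] at h2
      exact hh h2.symm
  · intro g
    have : Continuous (fun x : X => g • x) := by
      refine Continuous.subtype_mk (f := fun x : X => shift g x.1) ?_ _
      rw [continuous_pi_iff]
      intro h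
      exact hcont (g⁻¹ * h)
    exact this.measurable
  · intro g x h
    by_contra hg
    exact x.2 g hg (congrArg Subtype.val h)

end Pool.Agent.Results.MP_2fa24b_lc.BorelEdgePartition
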